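import Pool.Graph.R_pool_sql_team_seeded_620a6dc7.Helper876_Robin.LFrozen

/-!
MP_e2972c_an, Q1 (Robin eigenvalue, boundary measure prescribed): the ball maximises the first
Robin eigenvalue for every negative boundary parameter, in every dimension `n ≥ 2`, among all
nonempty bounded open sets, without any regularity of the boundary and without connectedness.
-/

set_option autoImplicit false

open MeasureTheory Set Metric Filter Topology
open scoped ENNReal NNReal InnerProductSpace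

namespace Pool.Agent.Results.MP_e2972c_an.AllOpenSets

open Pool.Agent.Helper876 Pool.Agent.Helper876.Rob

/-- test functions: `C¹` functions on `ℝⁿ` with compact support which do not vanish almost
everywhere in `Ω` -/
def Test (n : ℕ) (Ω : Set (EuclideanSpace ℝ (Fin n))) (u : EuclideanSpace ℝ (Fin n) → ℝ) : Prop :=
  ContDiff ℝ 1 u ∧ HasCompactSupport u ∧ (∫ x in Ω, u x ^ 2) ≠ 0

/-- the Robin Rayleigh quotient with boundary parameter `α`; the boundary carries the
`(n-1)`-dimensional Hausdorff measure -/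
noncomputable def rayleigh (n : ℕ) (Ω : Set (EuclideanSpace ℝ (Fin n))) (α : ℝ)
    (u : EuclideanSpace ℝ (Fin n) → ℝ) : ℝ :=
  ((∫ x in Ω, ‖fderiv ℝ u x‖ ^ 2) +
    α * ∫ x in frontier Ω, u x ^ 2 ∂(Measure.hausdorffMeasure ((n - 1 : ℕ) : ℝ))) /
      ∫ x in Ω, u x ^ 2

/-- the first Robin eigenvalue: the infimum, in the extended reals, of the Rayleigh quotients -/
noncomputable def lambda1 (n : ℕ) (Ω : Set (EuclideanSpace ℝ (Fin n))) (α : ℝ) : EReal :=
  ⨅ (u : EuclideanSpace ℝ (Fin n) → ℝ) (_ : Test n Ω u), ((rayleigh n Ω α u : ℝ) : EReal)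

/-- `Ω` has a Lipschitz boundary: near each boundary point it is, after an isometry, the region
below the graph of a Lipschitz function -/
def LipschitzBoundary (m : ℕ) (Ω : Set (EuclideanSpace ℝ (Fin (m + 1)))) : Prop :=
  ∀ x ∈ frontier Ω, ∃ r : ℝ, 0 < r ∧
    ∃ R : EuclideanSpace ℝ (Fin (m+1)) ≃ₗᵢ[ℝ] EuclideanSpace ℝ (Fin (m+1)),
    ∃ K : NNReal, ∃ g : (Fin m → ℝ) → ℝ, LipschitzWith K g ∧
      ∀ y ∈ Metric.ball x r,
        (y ∈ Ω ↔ EuclideanSpace.proj (Fin.last m) (R y) <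
            g (fun i => EuclideanSpace.proj (Fin.castSucc i) (R y)))

theorem bounded_below (m : ℕ) (α : ℝ) (hα : α < 0)
    (Ω : Set (EuclideanSpace ℝ (Fin (m+1)))) (hΩ : IsOpen Ω)
    (hb : Bornology.IsBounded Ω) (hlip : LipschitzBoundary m Ω) :
    ∃ B : ℝ, (B : EReal) ≤ lambda1 (m + 1) Ω α := by
  obtain ⟨C, hC⟩ := LLip.lip_trace m Ω hΩ hb hlip (1 / (-α)) (by
    apply one_div_pos.2
    linarith)
  refine ⟨α * C, le_iInf₂ fun u hu => ?_⟩
  obtain ⟨hu, -, hne0⟩ := hu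
  rw [EReal.coe_le_coe_iff]
  unfold rayleigh
  simp only [Nat.add_sub_cancel]
  have hpos : 0 < ∫ x in Ω, u x ^ 2 :=
    lt_of_le_of_ne (integral_nonneg fun x => sq_nonneg _) (Ne.symm hne0)
  rw [le_div_iff₀ hpos]
  have h1 := hC u hu
  have h2 := mul_le_mul_of_nonneg_left h1 (show (0:ℝ) ≤ -α by linarith)
  have h3 : -α * (1 / -α * (∫ x in Ω, ‖fderiv ℝ u x‖ ^ 2) + C * ∫ x in Ω, u x ^ 2) =
      (∫ x in Ω, ‖fderiv ℝ u x‖ ^ 2) - α * C * ∫ x in Ω, u x ^ 2 := by
    have h0 : -α ≠ 0 := neg_ne_zero.2 hα.ne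
    rw [mul_add, ← mul_assoc, mul_one_div_cancel h0]
    ring
  rw [h3] at h2
  linarith

theorem main (m : ℕ) (hm : 1 ≤ m) (α : ℝ) (hα : α < 0)
    (Ω : Set (EuclideanSpace ℝ (Fin (m+1)))) (hΩ : IsOpen Ω) (hne : Ω.Nonempty)
    (hb : Bornology.IsBounded Ω)
    (c : EuclideanSpace ℝ (Fin (m+1))) (ρ : ℝ) (hρ : 0 < ρ)
    (hper : Measure.hausdorffMeasure (m : ℝ) (frontier (Metric.ball c ρ)) =
      Measure.hausdorffMeasure (m : ℝ) (frontier Ω)) :
    ∃ B : ℝ, (B : EReal) ≤ lambda1 (m + 1) (ball c ρ) α ∧ lambda1 (m + 1) Ω α ≤ B := by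
  have hn : 2 ≤ m + 1 := by omega
  have : Nontrivial (E (m + 1)) := by
    have : Nonempty (Fin (m + 1)) := ⟨⟨0, by omega⟩⟩
    infer_instance
  obtain ⟨k, hk, hsurf⟩ := exists_factor m
  have hk0 : (0:ℝ) < k := hk
  have hkint : ∀ (s : Set (E (m + 1))) (f : E (m + 1) → ℝ),
      ∫ x in s, f x ∂(surf (m + 1)) =
        k * ∫ x in s, f x ∂(Measure.hausdorffMeasure (m : ℝ)) := by
    intro s f
    rw [hsurf, Measure.restrict_smul, integral_smul_nnreal_measure]
    rfl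
  set A := -α / k with hA
  have hA0 : 0 < A := div_pos (by linarith) hk0
  obtain ⟨p, hpc, hp⟩ := prof_exists (m + 1) hn
  have hp1 : Prof (m + 1) 1 p := by simpa using hp 1 one_pos
  obtain ⟨κB, hκB, hκBA⟩ := exists_kappa hn hp1 hρ hA0
  have hsph : surf (m + 1) (frontier (ball c ρ)) =
      ENNReal.ofReal (ρ ^ (m + 1 - 1)) * ((m + 1 : ℕ) * (volume : Measure (E (m + 1))) (ball 0 1)) := by
    rw [frontier_ball c hρ.ne']
    exact JS.sphere_mass (m + 1) hn c ρ hρ
  have hper' : surf (m + 1) (frontier Ω) = surf (m + 1) (frontier (ball c ρ)) := by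
    rw [hsurf, Measure.smul_apply, Measure.smul_apply, hper]
  have hfin : surf (m + 1) (frontier Ω) < ⊤ := by
    rw [hper', hsph]
    exact ENNReal.mul_lt_top ENNReal.ofReal_lt_top
      (ENNReal.mul_lt_top (ENNReal.natCast_lt_top _) measure_ball_lt_top)
  have hreal : (surf (m + 1) (frontier Ω)).toReal =
      (m + 1 : ℕ) * volume.real (ball (0 : E (m + 1)) 1) * ρ ^ (m + 1 - 1) := by
    rw [hper', hsph, ENNReal.toReal_mul, ENNReal.toReal_mul,
      ENNReal.toReal_ofReal (by positivity), ENNReal.toReal_natCast, measureReal_def]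
    ring
  refine ⟨-κB, le_iInf₂ fun u hu => ?_, ?_⟩
  · -- the ball
    obtain ⟨hu, -, hne0⟩ := hu
    rw [EReal.coe_le_coe_iff]
    unfold rayleigh
    simp only [Nat.add_sub_cancel]
    have hpos : 0 < ∫ x in Metric.ball c ρ, u x ^ 2 :=
      lt_of_le_of_ne (integral_nonneg fun x => sq_nonneg _) (Ne.symm hne0)
    rw [le_div_iff₀ hpos]
    have h1 := JL.lb_ball (m + 1) hn (surf (m + 1))
      (fun c R hR g hg => JS.sphere_integral (m + 1) hn c R hR g hg) c ρ hρ _
      (hp κB hκB).cont.continuousOn κB A (fun r hr => ⟨_, (hp κB hκB).deriv r hr.1, by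
        apply le_of_eq; ring⟩) (le_of_eq hκBA.symm) u hu
    rw [frontier_ball c hρ.ne']
    rw [hkint] at h1
    have h2 : A * (k * ∫ x in sphere c ρ, u x ^ 2 ∂(Measure.hausdorffMeasure (m : ℝ))) =
        -α * ∫ x in sphere c ρ, u x ^ 2 ∂(Measure.hausdorffMeasure (m : ℝ)) := by
      rw [hA]
      field_simp
    rw [h2] at h1
    linarith
  by_contra hcon
  push Not at hcon
  obtain ⟨q, hq1, hq2⟩ := EReal.lt_iff_exists_real_btwn.1 hcon
  rw [EReal.coe_lt_coe_iff] at hq1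
  set κ := max (-q) (κB / 2) with hκ
  have hκ0 : 0 < κ := lt_of_lt_of_le (by positivity) (le_max_right _ _)
  have hκB' : κ < κB := max_lt (by linarith) (by linarith)
  have hκA : Real.sqrt κ * p (Real.sqrt κ * ρ) < A := by
    rw [← hκBA]
    have h1 : Real.sqrt κ < Real.sqrt κB := Real.sqrt_lt_sqrt hκ0.le hκB'
    have h2 : 0 < Real.sqrt κ := Real.sqrt_pos.2 hκ0
    have h3 : p (Real.sqrt κ * ρ) < p (Real.sqrt κB * ρ) := by
      apply hp1.mono
      · exact (mul_pos h2 hρ).le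
      · exact (mul_pos (h2.trans h1) hρ).le
      · exact mul_lt_mul_of_pos_right h1 hρ
    have h4 := hp1.pos _ (mul_pos h2 hρ)
    exact mul_lt_mul'' h1 h3 h2.le h4.le
  obtain ⟨u, hu, hlt⟩ := perimeter_key hn hΩ hne hb hfin hρ hreal hpc hp hκ0 hκA
  obtain ⟨v, hv, hvc, hveq⟩ := exists_cut hb hu
  obtain ⟨e1, e2, e3⟩ := cut_integrals hΩ hveq (surf (m + 1))
  rw [← e1, ← e2, ← e3] at hlt
  have hne0 : (∫ x in Ω, v x ^ 2) ≠ 0 := by
    intro h0
    have h6 := zero_on_closure hΩ hb hv.continuous h0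
    have h7 : ∫ x in frontier Ω, v x ^ 2 ∂(surf (m + 1)) = 0 := by
      rw [← integral_zero (E (m + 1)) ℝ (μ := (surf (m + 1)).restrict (frontier Ω))]
      apply setIntegral_congr_fun isClosed_frontier.measurableSet
      intro x hx
      simp only
      rw [h6 x (frontier_subset_closure hx)]
      norm_num
    rw [h7, h0] at hlt
    have h8 : 0 ≤ ∫ x in Ω, ‖fderiv ℝ v x‖ ^ 2 := integral_nonneg fun x => sq_nonneg _
    linarith
  have hpos : 0 < ∫ x in Ω, v x ^ 2 :=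
    lt_of_le_of_ne (integral_nonneg fun x => sq_nonneg _) (Ne.symm hne0)
  have h1 : lambda1 (m + 1) Ω α ≤ ((rayleigh (m + 1) Ω α v : ℝ) : EReal) :=
    iInf₂_le v ⟨hv, hvc, hne0⟩
  have h2 : rayleigh (m + 1) Ω α v < -κ := by
    unfold rayleigh
    simp only [Nat.add_sub_cancel]
    rw [div_lt_iff₀ hpos]
    rw [hkint] at hlt
    have h3 : A * (k * ∫ x in frontier Ω, v x ^ 2 ∂(Measure.hausdorffMeasure (m : ℝ))) =
        -α * ∫ x in frontier Ω, v x ^ 2 ∂(Measure.hausdorffMeasure (m : ℝ)) := by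
      rw [hA]
      field_simp
    rw [h3] at hlt
    linarith
  have h3 : -κ ≤ q := by
    have := le_max_left (-q) (κB / 2)
    linarith
  have h4 : ((rayleigh (m + 1) Ω α v : ℝ) : EReal) < (q : EReal) := by
    rw [EReal.coe_lt_coe_iff]
    linarith
  exact absurd (h1.trans_lt (h4.trans hq2)) (lt_irrefl _)

/-- **The ball maximises the first Robin eigenvalue for negative boundary parameter and given
boundary measure.** Let `m ≥ 1`, `α < 0`, and let `Ω ⊂ ℝ^(m+1)` be any nonempty bounded open set.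
If the ball `B` of centre `c` and radius `ρ > 0` has a boundary with the same `m`-dimensional
Hausdorff measure as `Ω`, then `λ₁(Ω, α) ≤ λ₁(B, α)`. Moreover `λ₁(B, α)` is not `-∞`, and
`λ₁(Ω, α)` is not `-∞` if `Ω` has a Lipschitz boundary. -/
theorem result (m : ℕ) (hm : 1 ≤ m) (α : ℝ) (hα : α < 0)
    (Ω : Set (EuclideanSpace ℝ (Fin (m+1)))) (hΩ : IsOpen Ω) (hne : Ω.Nonempty)
    (hb : Bornology.IsBounded Ω)
    (c : EuclideanSpace ℝ (Fin (m+1))) (ρ : ℝ) (hρ : 0 < ρ)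
    (hper : Measure.hausdorffMeasure (m : ℝ) (frontier (Metric.ball c ρ)) =
      Measure.hausdorffMeasure (m : ℝ) (frontier Ω)) :
    lambda1 (m + 1) Ω α ≤ lambda1 (m + 1) (ball c ρ) α ∧
    lambda1 (m + 1) (ball c ρ) α ≠ ⊥ ∧
    (LipschitzBoundary m Ω → lambda1 (m + 1) Ω α ≠ ⊥) := by
  obtain ⟨B, h1, h2⟩ := main m hm α hα Ω hΩ hne hb c ρ hρ hper
  refine ⟨h2.trans h1, fun h => ?_, fun hlip h => ?_⟩
  · rw [h] at h1
    exact absurd h1 (not_le.2 (EReal.bot_lt_coe B))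
  · obtain ⟨B', hB'⟩ := bounded_below m α hα Ω hΩ hb hlip
    rw [h] at hB'
    exact absurd hB' (not_le.2 (EReal.bot_lt_coe B'))

end Pool.Agent.Results.MP_e2972c_an.AllOpenSets
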